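import Pool.Agent.L7h12.SV.Stm

/-! Project SV, part EVN. -/

set_option linter.all false
set_option autoImplicit false

namespace Pool.Agent.L7h33.SV

open Polynomial Set Filter
open Pool.Agent.L7h12.SV

theorem ev_top (q : ℝ[X]) (h : 0 < q.natDegree) (hl : 0 < q.leadingCoeff) :
    ∃ A : ℝ, ∀ x, A ≤ x → 0 < q.eval x := by
  have := Polynomial.tendsto_atTop_of_leadingCoeff_nonneg q
    (Polynomial.natDegree_pos_iff_degree_pos.mp h) hl.le
  have h2 := this.eventually_gt_atTop 0
  rw [Filter.eventually_atTop] at h2
  exact h2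

theorem lc_neg (q : ℝ[X]) : (q.comp (-X)).leadingCoeff = q.leadingCoeff * (-1) ^ q.natDegree := by
  rw [Polynomial.leadingCoeff_comp]
  · rw [Polynomial.leadingCoeff_neg, Polynomial.leadingCoeff_X]
  · rw [Polynomial.natDegree_neg, Polynomial.natDegree_X]; norm_num

theorem nd_neg (q : ℝ[X]) : (q.comp (-X)).natDegree = q.natDegree := by
  rw [Polynomial.natDegree_comp, Polynomial.natDegree_neg, Polynomial.natDegree_X, mul_one]

theorem s_EVN : Pool.Agent.L7h12.SV.S_EVN := by
  intro p hp hl
  have hd : p.derivative.natDegree = 7 := by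
    rw [Polynomial.natDegree_derivative, hp]
  have hlc : p.derivative.leadingCoeff = p.leadingCoeff * 8 := by
    rw [Polynomial.leadingCoeff, hd, Polynomial.coeff_derivative, Polynomial.leadingCoeff, hp]
    norm_num
  have hlc' : 0 < p.derivative.leadingCoeff := by rw [hlc]; positivity
  obtain ⟨A, hA⟩ := ev_top p (by omega) hl
  obtain ⟨B, hB⟩ := ev_top (p.comp (-X)) (by rw [nd_neg]; omega) (by
    rw [lc_neg, hp]; norm_num; exact hl)
  obtain ⟨A', hA'⟩ := ev_top p.derivative (by omega) hlc'
  obtain ⟨B', hB'⟩ := ev_top (-(p.derivative.comp (-X))) (by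
    rw [Polynomial.natDegree_neg, nd_neg]; omega) (by
    rw [Polynomial.leadingCoeff_neg, lc_neg, hd]
    have h7 : ((-1:ℝ)) ^ 7 = -1 := by norm_num
    rw [h7]; linarith)
  have hB1 : ∀ x, x ≤ -B → 0 < p.eval x := by
    intro x hx
    have := hB (-x) (by linarith)
    simpa [Polynomial.eval_comp] using this
  have hB2 : ∀ x, x ≤ -B' → p.derivative.eval x < 0 := by
    intro x hx
    have := hB' (-x) (by linarith)
    simpa [Polynomial.eval_comp] using this
  have hL : ∀ x, (∀ s, s ≤ x → Rg p s) → p.derivative.eval x < 0 := by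
    intro x hx
    by_contra hcon
    push Not at hcon
    have h1 := hB2 (min x (-B')) (min_le_right _ _)
    have hcont : ContinuousOn (fun t => p.derivative.eval t) (Icc (min x (-B')) x) :=
      p.derivative.continuous.continuousOn
    have hivt := intermediate_value_Icc (min_le_left x (-B')) hcont
    obtain ⟨s, hs, hs0⟩ := hivt ⟨h1.le, hcon⟩
    exact hx s hs.2 hs0
  have hR : ∀ x, (∀ s, x ≤ s → Rg p s) → 0 < p.derivative.eval x := by
    intro x hx
    by_contra hcon
    push Not at hcon
    have h1 := hA' (max x A') (le_max_right _ _)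
    have hcont : ContinuousOn (fun t => p.derivative.eval t) (Icc x (max x A')) :=
      p.derivative.continuous.continuousOn
    have hivt := intermediate_value_Icc (le_max_left x A') hcont
    obtain ⟨s, hs, hs0⟩ := hivt ⟨hcon, h1.le⟩
    exact hx s hs.1 hs0
  refine ⟨hd, ?_, ?_, hL, hR⟩
  · by_cases hAB : -B ≤ A
    · have hc : ContinuousOn (fun t => p.eval t) (Icc (-B) A) := p.continuous.continuousOn
      obtain ⟨m, hm, hmin⟩ := isCompact_Icc.exists_isMinOn (nonempty_Icc.mpr hAB) hc
      refine ⟨min 0 (p.eval m), ?_⟩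
      intro x
      rcases le_total x (-B) with h | h
      · exact (min_le_left _ _).trans (hB1 x h).le
      · rcases le_total A x with h' | h'
        · exact (min_le_left _ _).trans (hA x h').le
        · exact (min_le_right _ _).trans (hmin ⟨h, h'⟩)
    · refine ⟨0, ?_⟩
      intro x
      rcases le_total x (-B) with h | h
      · exact (hB1 x h).le
      · exact (hA x (by linarith)).le
  · by_contra hcon
    push Not at hcon
    have h1 := hL 0 (fun s _ => hcon s)
    have h2 := hR 0 (fun s _ => hcon s)
    linarith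

end Pool.Agent.L7h33.SV
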