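import Pool.Agent.L7h12.SV.Stm
import Pool.Agent.L7h96.OS.Shs
import Pool.Agent.L7h4.OS.Shn

/-! Project SV, part EX: the example, from the parts SHN (helper4) and SHS (helper96) of project OS. -/

set_option linter.all false
set_option autoImplicit false

namespace Pool.Agent.L7h33.SV

open Polynomial
open Pool.Agent.L7h12.SV
open Pool.Agent.L7h32.OS (pol cheb Sep)

theorem pol_coeff (a : ℕ → ℝ) (i : ℕ) (hi : i < 9) : (pol a).coeff i = a i := by
  unfold pol
  rw [Polynomial.finset_sum_coeff]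
  simp only [Polynomial.coeff_C_mul, Polynomial.coeff_X_pow]
  rw [Finset.sum_eq_single i]
  · simp
  · intro j _ hj; simp [hj.symm]
  · intro h; exact absurd (Finset.mem_range.mpr hi) h

theorem pol_natDegree (a : ℕ → ℝ) (h : a 8 ≠ 0) : (pol a).natDegree = 8 := by
  apply le_antisymm
  · unfold pol
    apply Polynomial.natDegree_sum_le_of_forall_le
    intro i hi
    refine (Polynomial.natDegree_C_mul_X_pow_le _ _).trans ?_
    have := Finset.mem_range.mp hi
    omega
  · apply Polynomial.le_natDegree_of_ne_zero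
    rw [pol_coeff a 8 (by norm_num)]
    exact h

theorem s_EX : Pool.Agent.L7h12.SV.S_EX := by
  set F : MvPolynomial (Fin 3) ℝ := ∑ i ∈ Finset.range 9,
    (MvPolynomial.C (cheb (1 / 2) i) * MvPolynomial.X 0 ^ i
      + MvPolynomial.C (cheb 0 i) * MvPolynomial.X 1 ^ i) * MvPolynomial.X 2 ^ (8 - i) with hF
  have hS : Sep F (cheb (1 / 2)) (cheb 0) := hF
  obtain ⟨h1, h2, -⟩ := Pool.Agent.L7h4.OS.s_SHN F hS
  have h3 := Pool.Agent.L7h96.OS.s_SHS F hS
  have h8 : ∀ c, cheb c 8 ≠ 0 := by
    intro c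
    show (128 : ℝ) ≠ 0
    norm_num
  refine ⟨F, pol (cheb (1 / 2)), -pol (cheb 0), h1, ⟨pol_natDegree _ (h8 _), ?_, ?_⟩, h2, h3⟩
  · rw [Polynomial.natDegree_neg]; exact pol_natDegree _ (h8 _)
  · intro x y z
    rw [hF, map_sum]
    refine Finset.sum_congr rfl ?_
    intro i hi
    have hi' := Finset.mem_range.mp hi
    rw [Polynomial.coeff_neg, pol_coeff _ i hi', pol_coeff _ i hi']
    simp only [map_mul, map_add, map_pow, MvPolynomial.eval_C, MvPolynomial.eval_X]
    simp only [Matrix.cons_val_zero, Matrix.cons_val_one, Matrix.cons_val]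
    ring

end Pool.Agent.L7h33.SV
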